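import Mathlib
import Pool.Agent.Lib.helper3.Chain

/-! Comparison of the one-step energies of resampling and of stirring. -/

set_option linter.unusedSectionVars false

namespace Pool.Agent.H.MP_20d613_pr

open MeasureTheory ProbabilityTheory Finset Function Pool.Agent.H.MP_e8a7ad_pr
  Pool.Agent.Lib.helper3.Chain
open scoped ENNReal Classical

variable {I : Type} [Countable I]

noncomputable abbrev β : Measure Bool := uniformOn Set.univ

noncomputable abbrev mu (I : Type) : Measure (I → Bool) := Measure.infinitePi fun _ => β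

lemma β_single (c : Bool) : β {c} = 2⁻¹ := by simp [uniformOn_univ]

noncomputable def fl (x : I) (η : I → Bool) : I → Bool := update η x (!η x)

lemma mp_fl (x : I) : MeasurePreserving (fl x) (mu I) (mu I) := by
  have e : fl x = fun (η : I → Bool) i => if i = x then !η i else η i := by
    funext η i
    by_cases h : i = x <;> simp [fl, h]
  have m : ∀ i, Measurable fun c : Bool => if i = x then !c else c := fun _ => measurable_from_top
  rw [e]
  refine ⟨measurable_pi_lambda _ fun i => (m i).comp (measurable_pi_apply i), ?_⟩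
  rw [Measure.infinitePi_map_pi _ m]
  congr 1
  funext i
  split_ifs
  · refine Measure.ext_of_singleton fun c => ?_
    rw [Measure.map_apply measurable_from_top .of_discrete,
      show (fun c : Bool => !c) ⁻¹' {c} = {!c} by ext; cases c <;> simp, β_single, β_single]
  · simp

noncomputable def Dx (h : (I → Bool) → ℝ) (x : I) : ℝ≥0∞ :=
  ∫⁻ η, ENNReal.ofReal ((h (fl x η) - h η) ^ 2) ∂mu I

def Dep (Λ : Finset I) {α : Type} (h : (I → Bool) → α) : Prop :=
  ∀ η η', (∀ x ∈ Λ, η x = η' x) → h η = h η'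

section ord
variable (ρ : Measure ℕ) [IsProbabilityMeasure ρ]

noncomputable abbrev πo (I : Type) : Measure ((I → ℕ) × (I → Bool)) :=
  (Measure.infinitePi fun _ => ρ).prod (mu I)

def Φo (z : (I → Bool) × (I → ℕ) × (I → Bool)) : I → Bool :=
  fun x => if z.2.1 x = 0 then z.1 x else z.2.2 x

lemma mpo : MeasurePreserving Φo ((mu I).prod (πo ρ I)) (mu I) := by
  have m : Measurable fun z : Bool × ℕ × Bool => if z.2.1 = 0 then z.1 else z.2.2 :=
    measurable_of_countable _
  have h1 : (β.prod (ρ.prod β)).map (fun z => if z.2.1 = 0 then z.1 else z.2.2) = β := by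
    refine Measure.ext_of_lintegral _ fun f hf => ?_
    rw [lintegral_map hf m, lintegral_prod _ (measurable_of_countable _).aemeasurable]
    simp only [lintegral_prod _ (measurable_of_countable _).aemeasurable]
    rw [lintegral_lintegral_swap (measurable_of_countable _).aemeasurable]
    refine (lintegral_congr (g := fun _ => ∫⁻ c, f c ∂β) fun n => ?_).trans (by simp)
    by_cases h : n = 0 <;> simp only [h, if_true, if_false, lintegral_const, measure_univ, mul_one]
  have h2 : MeasurePreserving (fun (w : I → Bool × ℕ × Bool) i =>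
      if (w i).2.1 = 0 then (w i).1 else (w i).2.2)
      (Measure.infinitePi fun _ => β.prod (ρ.prod β)) (mu I) :=
    ⟨measurable_pi_lambda _ fun i => m.comp (measurable_pi_apply i), by
      rw [Measure.infinitePi_map_pi _ fun _ => m]; simp only [h1]⟩
  exact h2.comp ((zip _ _).comp ((MeasurePreserving.id _).prod (zip (fun _ : I => ρ) fun _ => β)))

lemma lower {Λ : Finset I} {h : (I → Bool) → ℝ} (hm : Measurable h) (hd : Dep Λ h) :
    ρ {0}ᶜ * ρ {0} ^ Λ.card * 2⁻¹ * ∑ x ∈ Λ, Dx h x ≤ DD (mu I) (πo ρ I) Φo h := by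
  have mΦ := (mpo (I := I) ρ).measurable
  have mf := fun x => (mp_fl (I := I) x).measurable
  set E : I → Set (I → ℕ) := fun x => (Λ : Set I).pi fun y => if y = x then {0}ᶜ else {0} with hE
  have mE : ∀ x, MeasurableSet (E x) := fun x =>
    MeasurableSet.pi Λ.countable_toSet fun _ _ => trivial
  have pE : ∀ x ∈ Λ, ρ {0}ᶜ * ρ {0} ^ Λ.card ≤ Measure.infinitePi (fun _ : I => ρ) (E x) := by
    intro x hx
    rw [Measure.infinitePi_pi _ fun _ _ => .of_discrete, ← mul_prod_erase _ _ hx, if_pos rfl,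
      prod_congr rfl fun y hy => by rw [if_neg (ne_of_mem_erase hy)], prod_const]
    gcongr _ * ?_
    exact pow_le_pow_of_le_one zero_le prob_le_one card_erase_le
  rw [DD, lintegral_prod _ (by fun_prop), mul_sum]
  simp only [Dx]
  have mx : ∀ x, Measurable fun η => ENNReal.ofReal ((h (fl x η) - h η) ^ 2) := fun x => by
    have := mf x
    fun_prop
  simp only [← lintegral_const_mul _ (mx _)]
  rw [← lintegral_finsetSum _ fun x _ => by fun_prop]
  refine lintegral_mono fun η => ?_
  rw [lintegral_prod _ (by fun_prop)]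
  calc _ ≤ ∑ x ∈ Λ, ∫⁻ u, (E x).indicator (fun _ => 2⁻¹ * ENNReal.ofReal ((h (fl x η) - h η) ^ 2)) u
        ∂Measure.infinitePi fun _ : I => ρ := by
        refine sum_le_sum fun x hx => ?_
        rw [lintegral_indicator_const (mE x), mul_assoc, mul_comm]
        gcongr
        exact pE x hx
    _ ≤ _ := by
        rw [← lintegral_finsetSum _ fun x _ => measurable_const.indicator (mE x)]
        refine lintegral_mono fun u => ?_
        by_cases hu : ∃ x ∈ Λ, u ∈ E x
        swap
        · push Not at hu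
          rw [sum_eq_zero fun x hx => Set.indicator_of_notMem (hu x hx) _]
          exact zero_le
        obtain ⟨x, hx, hu⟩ := hu
        have h1 : u x ≠ 0 := by simpa using hu x hx
        have h2 : ∀ y ∈ Λ, y ≠ x → u y = 0 := fun y hy hyx => by simpa [hyx] using hu y hy
        rw [sum_eq_single x (fun y hy hyx => Set.indicator_of_notMem
          (fun hc => h1 (by simpa [hyx.symm] using hc x hx)) _) (fun hc => absurd hx hc),
          Set.indicator_of_mem hu, mul_comm, ← β_single (!η x),
          ← (measurePreserving_eval_infinitePi (fun _ : I => β) x).measure_preimage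
            (MeasurableSet.nullMeasurableSet trivial),
          ← lintegral_indicator_const (measurable_pi_apply x .of_discrete)]
        refine lintegral_mono (Set.indicator_le' (fun b hb => le_of_eq ?_) fun _ _ => zero_le)
        rw [hd (fl x η) (Φo (η, u, b)) fun y hy => ?_]
        by_cases hyx : y = x
        · subst hyx
          have : b y = !η y := hb
          simp [fl, Φo, h1, this]
        · simp [fl, Φo, h2 y hy hyx, hyx]

end ord

section exc

def act (u : Sym2 I → ℕ) (x y : I) : Prop :=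
  u s(x, y) ≠ 0 ∧ (∀ z, u s(x, z) ≠ 0 → z = y) ∧ ∀ z, u s(y, z) ≠ 0 → z = x

noncomputable def mate (u : Sym2 I → ℕ) (x : I) : I := if h : ∃ y, act u x y then h.choose else x

lemma act.symm {u : Sym2 I → ℕ} {x y : I} (h : act u x y) : act u y x :=
  ⟨Sym2.eq_swap ▸ h.1, h.2.2, h.2.1⟩

lemma act.mate {u : Sym2 I → ℕ} {x y : I} (h : act u x y) : mate u x = y := by
  have : ∃ y, act u x y := ⟨y, h⟩
  rw [Pool.Agent.H.MP_20d613_pr.mate, dif_pos this]
  exact h.2.1 _ this.choose_spec.1

lemma mate_or (u : Sym2 I → ℕ) (x : I) :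
    act u x (mate u x) ∨ (mate u x = x ∧ ∀ y, ¬ act u x y) := by
  by_cases h : ∃ y, act u x y
  · obtain ⟨y, h⟩ := h
    exact Or.inl (h.mate ▸ h)
  · exact Or.inr ⟨dif_neg h, not_exists.1 h⟩

lemma mate_inv (u : Sym2 I → ℕ) : Involutive (mate u) := fun x => by
  rcases mate_or u x with h | h
  · exact h.symm.mate
  · rw [h.1, h.1]

noncomputable def Φe (z : (I → Bool) × (Sym2 I → ℕ)) : I → Bool := fun x => z.1 (mate z.2 x)

lemma mΦe : Measurable (Φe (I := I)) := by
  refine measurable_pi_lambda _ fun x => measurable_to_bool ?_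
  have : (fun z : (I → Bool) × (Sym2 I → ℕ) => Φe z x) ⁻¹' {true} =
      {z | (∃ y, act z.2 x y ∧ z.1 y = true) ∨ ((∀ y, ¬ act z.2 x y) ∧ z.1 x = true)} := by
    ext z
    simp only [Set.mem_preimage, Set.mem_singleton_iff, Φe, Set.mem_ofPred_eq]
    constructor
    · intro h
      rcases mate_or z.2 x with h' | h'
      · exact Or.inl ⟨_, h', h⟩
      · exact Or.inr ⟨h'.2, h'.1 ▸ h⟩
    · rintro (⟨y, h1, h2⟩ | ⟨h1, h2⟩)
      · rwa [h1.mate]
      · rwa [((mate_or z.2 x).resolve_left (h1 _)).1]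
  rw [this]
  unfold act
  measurability

lemma mp_inj {f : I → I} (hf : Injective f) :
    MeasurePreserving (fun (η : I → Bool) x => η (f x)) (mu I) (mu I) :=
  ⟨by fun_prop, Measure.map_infinitePi_infinitePi_of_inj hf⟩

variable (π : Measure (Sym2 I → ℕ)) [IsProbabilityMeasure π]

lemma mpe : MeasurePreserving Φe ((mu I).prod π) (mu I) := by
  refine ⟨mΦe, Measure.ext_of_lintegral _ fun f hf => ?_⟩
  rw [lintegral_map hf mΦe, lintegral_prod_symm (fun z => f (Φe z)) (hf.comp mΦe).aemeasurable]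
  refine (lintegral_congr (g := fun _ => ∫⁻ c, f c ∂mu I) fun u => ?_).trans (by simp)
  exact (mp_inj (mate_inv u).injective).lintegral_comp hf

lemma syme (f g : (I → Bool) → ℝ) (hf : BM f 1) (hg : BM g 1) :
    ∫ x, f x * Op π Φe g x ∂mu I = ∫ x, g x * Op π Φe f x ∂mu I := by
  have i : ∀ {f g : (I → Bool) → ℝ}, BM f 1 → BM g 1 → Integrable
      (uncurry fun η u => f η * g (Φe (η, u))) ((mu I).prod π) := fun hf hg =>
    (BM.mul ⟨hf.m.comp measurable_fst, fun _ => hf.b _⟩ ⟨hg.m.comp mΦe, fun _ => hg.b _⟩).int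
  simp only [Op, ← integral_const_mul]
  rw [integral_integral_swap (i hf hg), integral_integral_swap (i hg hf)]
  refine integral_congr_ae (ae_of_all _ fun u => ?_)
  have m := mp_inj (mate_inv u).injective
  have := integral_map (μ := mu I) m.measurable.aemeasurable (f := fun η => g η * f (Φe (η, u)))
    (hg.m.mul (hf.m.comp m.measurable)).aestronglyMeasurable
  rw [m.map_eq] at this
  dsimp only
  rw [this]
  refine integral_congr_ae (ae_of_all _ fun η => ?_)
  have e : Φe ((fun x => η (mate u x)), u) = η := funext fun x => congrArg η (mate_inv u x)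
  dsimp only
  rw [e]
  exact mul_comm (f η) _

lemma swap_le {h : (I → Bool) → ℝ} (hm : Measurable h) (x y : I) :
    ∫⁻ η, ENNReal.ofReal ((h (fun z => η (Equiv.swap x y z)) - h η) ^ 2) ∂mu I ≤
      2 * Dx h x + 2 * Dx h y := by
  have mf := fun x => (mp_fl (I := I) x).measurable
  rw [Dx, ← (mp_fl y).lintegral_comp (f := fun η => ENNReal.ofReal ((h (fl x η) - h η) ^ 2))
    (by fun_prop), Dx, ← lintegral_const_mul _ (by fun_prop),
    ← lintegral_const_mul _ (by fun_prop), ← lintegral_add_left (by fun_prop)]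
  refine lintegral_mono fun η => ?_
  by_cases hxy : η x = η y
  · have : (fun z => η (Equiv.swap x y z)) = η := funext fun z => Equiv.apply_swap_eq_self hxy z
    simp [this]
  · have hne : x ≠ y := fun h => hxy (h ▸ rfl)
    have : (fun z => η (Equiv.swap x y z)) = fl x (fl y η) := by
      funext z
      by_cases h1 : z = x
      · subst h1
        simp only [fl, Equiv.swap_apply_left, update_self, update_of_ne hne]
        revert hxy; cases η z <;> cases η y <;> simp
      by_cases h2 : z = y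
      · subst h2
        simp only [fl, Equiv.swap_apply_right, update_self, update_of_ne h1]
        revert hxy; cases η z <;> cases η x <;> simp
      · simp [fl, Equiv.swap_apply_of_ne_of_ne h1 h2, h1, h2]
    rw [this, ← ENNReal.ofReal_ofNat, ← ENNReal.ofReal_mul (by norm_num),
      ← ENNReal.ofReal_mul (by norm_num), ← ENNReal.ofReal_add (by positivity) (by positivity)]
    refine ENNReal.ofReal_le_ofReal ?_
    nlinarith [sq_nonneg (h (fl x (fl y η)) - 2 * h (fl y η) + h η)]

variable (ρ : Sym2 I → Measure ℕ) [∀ e, IsProbabilityMeasure (ρ e)]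

lemma p_one (e : Sym2 I) (t : Set ℕ) : Measure.infinitePi ρ {u | u e ∈ t} = ρ e t :=
  (measurePreserving_eval_infinitePi ρ e).measure_preimage (MeasurableSet.nullMeasurableSet trivial)

lemma p_two (e e' : Sym2 I) :
    Measure.infinitePi ρ {u | e ≠ e' ∧ u e ≠ 0 ∧ u e' ≠ 0} ≤ ρ e {0}ᶜ * ρ e' {0}ᶜ := by
  by_cases h : e = e'
  · simp [h]
  · have := congrArg (fun μ : Measure (ℕ × ℕ) => μ ({0}ᶜ ×ˢ {0}ᶜ))
      (Measure.infinitePi_map_eval_prod (P := ρ) h)
    rw [Measure.map_apply (by fun_prop) (by measurability), Measure.prod_prod] at this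
    exact le_trans (measure_mono fun u hu => hu.2) this.le

lemma upper {Λ : Finset I} {h : (I → Bool) → ℝ} (hb : BM h 1) (h0 : ∀ x, 0 ≤ h x) (hd : Dep Λ h)
    {ε : ℝ≥0∞} (hε : ∀ x, ∑' y, ρ s(x, y) {0}ᶜ ≤ ε) :
    DD (mu I) (Measure.infinitePi ρ) Φe h ≤ (Λ.card * ε) ^ 2 + 4 * ε * ∑ x ∈ Λ, Dx h x := by
  have hm := hb.m
  set Two : Set (Sym2 I → ℕ) := ⋃ x ∈ Λ, ⋃ y, ⋃ x' ∈ Λ, ⋃ y',
    {u | s(x, y) ≠ s(x', y') ∧ u s(x, y) ≠ 0 ∧ u s(x', y') ≠ 0} with hT
  have mT : MeasurableSet Two := by rw [hT]; measurability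
  have p1 : ∑ x ∈ Λ, ∑' y, ρ s(x, y) {0}ᶜ ≤ Λ.card * ε :=
    (sum_le_card_nsmul _ _ _ fun x _ => hε x).trans (by simp)
  have pT : Measure.infinitePi ρ Two ≤ (Λ.card * ε) ^ 2 := by
    refine le_trans ?_ (pow_le_pow_left' p1 2)
    rw [pow_two, sum_mul]
    refine (measure_biUnion_finset_le _ _).trans (sum_le_sum fun x _ => ?_)
    rw [← ENNReal.tsum_mul_right]
    refine (measure_iUnion_le _).trans (ENNReal.tsum_le_tsum fun y => ?_)
    rw [mul_sum]
    refine (measure_biUnion_finset_le _ _).trans (sum_le_sum fun x' _ => ?_)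
    rw [← ENNReal.tsum_mul_left]
    exact (measure_iUnion_le _).trans (ENNReal.tsum_le_tsum fun y' => p_two ρ _ _)
  set S : I → I → (I → Bool) → ℝ≥0∞ := fun x y η =>
    ENNReal.ofReal ((h (fun z => η (Equiv.swap x y z)) - h η) ^ 2) with hS
  have mS : ∀ x y, Measurable (S x y) := fun x y => by rw [hS]; fun_prop
  have mI : ∀ e : Sym2 I, Measurable ({u : Sym2 I → ℕ | u e ∈ ({0}ᶜ : Set ℕ)}.indicator
      (1 : (Sym2 I → ℕ) → ℝ≥0∞)) := fun e => measurable_one.indicator (by measurability)
  have m3 : ∀ x y, Measurable fun z : (I → Bool) × (Sym2 I → ℕ) => S x y z.1 *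
      {u : Sym2 I → ℕ | u s(x, y) ∈ ({0}ᶜ : Set ℕ)}.indicator 1 z.2 :=
    fun x y => ((mS x y).comp measurable_fst).mul ((mI _).comp measurable_snd)
  calc _ ≤ ∫⁻ z, ((Prod.snd ⁻¹' Two).indicator 1 z + ∑ x ∈ Λ, ∑' y, S x y z.1 *
        {u : Sym2 I → ℕ | u s(x, y) ∈ ({0}ᶜ : Set ℕ)}.indicator 1 z.2)
          ∂(mu I).prod (Measure.infinitePi ρ) := by
        refine lintegral_mono fun ⟨η, u⟩ => ?_
        by_cases h1 : u ∈ Two
        · refine le_add_right ?_
          rw [Set.indicator_of_mem (by exact h1)]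
          refine ENNReal.ofReal_le_one.2 ?_
          have := abs_le.1 (hb.b η)
          have := abs_le.1 (hb.b (Φe (η, u)))
          nlinarith [h0 η, h0 (Φe (η, u))]
        refine le_add_left ?_
        by_cases h2 : ∀ x ∈ Λ, mate u x = x
        · rw [hd (Φe (η, u)) η fun x hx => by simp [Φe, h2 x hx]]
          simp
        push Not at h2
        obtain ⟨x, hx, h2⟩ := h2
        have h3 := (mate_or u x).resolve_right fun h => h2 h.1
        generalize mate u x = y at h2 h3
        refine le_trans ?_ (single_le_sum (fun _ _ => zero_le) hx)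
        refine le_trans (le_of_eq ?_) (ENNReal.le_tsum y)
        rw [Set.indicator_of_mem (by exact h3.1), Pi.one_apply, mul_one,
          hd (Φe (η, u)) (fun z => η (Equiv.swap x y z)) fun z hz => ?_]
        simp only [Φe]
        congr 1
        by_cases a1 : z = x
        · rw [a1, h3.mate, Equiv.swap_apply_left]
        by_cases a2 : z = y
        · rw [a2, h3.symm.mate, Equiv.swap_apply_right]
        rw [Equiv.swap_apply_of_ne_of_ne a1 a2]
        refine ((mate_or u z).resolve_left fun h4 => h1 ?_).1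
        simp only [hT, Set.mem_iUnion]
        exact ⟨x, hx, y, z, hz, _, by simp [Ne.symm a1, Ne.symm a2], h3.1, h4.1⟩
    _ ≤ (Λ.card * ε) ^ 2 + ∑ x ∈ Λ, ∑' y, (2 * Dx h x + 2 * Dx h y) * ρ s(x, y) {0}ᶜ := by
        rw [lintegral_add_left (measurable_one.indicator (measurable_snd mT)),
          lintegral_indicator_one (measurable_snd mT),
          measurePreserving_snd.measure_preimage mT.nullMeasurableSet,
          lintegral_finsetSum _ fun x _ => Measurable.tsum fun y => m3 x y]
        gcongr with x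
        rw [lintegral_tsum fun y => (m3 x y).aemeasurable]
        refine ENNReal.tsum_le_tsum fun y => ?_
        rw [lintegral_prod_mul (mS x y).aemeasurable (mI _).aemeasurable,
          lintegral_indicator_one (by measurability), p_one]
        gcongr
        exact swap_le hm x y
    _ ≤ _ := by
        gcongr
        simp only [add_mul, ENNReal.tsum_add, sum_add_distrib, ENNReal.tsum_mul_left]
        have a1 : ∑ x ∈ Λ, 2 * Dx h x * ∑' y, ρ s(x, y) {0}ᶜ ≤ 2 * ε * ∑ x ∈ Λ, Dx h x := by
          rw [mul_sum]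
          refine sum_le_sum fun x _ => ?_
          rw [mul_right_comm]
          gcongr
          exact hε x
        have a2 : ∑ x ∈ Λ, ∑' y, 2 * Dx h y * ρ s(x, y) {0}ᶜ ≤ 2 * ε * ∑ x ∈ Λ, Dx h x := by
          rw [← Summable.tsum_finsetSum fun _ _ => ENNReal.summable, tsum_eq_sum (s := Λ), mul_sum]
          · refine sum_le_sum fun y _ => ?_
            rw [← mul_sum, mul_right_comm]
            gcongr
            simp only [Sym2.eq_swap (b := y)]
            exact (ENNReal.sum_le_tsum _).trans (hε y)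
          · intro y hy
            have : ∀ η, h (fl y η) = h η := fun η => hd _ _ fun x hx =>
              update_of_ne (by rintro rfl; exact hy hx) _ _
            simp [Dx, this]
        exact (add_le_add a1 a2).trans (le_of_eq (by ring))

end exc

theorem compare (ρ : Measure ℕ) [IsProbabilityMeasure ρ] (ρ' : Sym2 I → Measure ℕ)
    [∀ e, IsProbabilityMeasure (ρ' e)] {ε L : ℝ≥0∞} (hε : ∀ x, ∑' y, ρ' s(x, y) {0}ᶜ ≤ ε)
    {Λ : Finset I} (hL : ε ≤ L * (ρ {0}ᶜ * ρ {0} ^ Λ.card * 2⁻¹)) {B : Set (I → Bool)}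
    (hB : MeasurableSet B) (hd : Dep Λ (· ∈ B)) {N : ℕ} (hN : 0 < N) :
    Pm (mu I) (Measure.infinitePi ρ') {ω | ∃ i ≤ N, Y Φe i ω ∈ B} ≤
      (2 + 8 * L) * Pm (mu I) (πo ρ I) {ω | ∃ i ≤ N, Y Φo i ω ∈ B} + N * (Λ.card * ε) ^ 2 := by
  obtain ⟨h, h1, h2, h3, h4, h5, h6⟩ := test (mu I) (πo ρ I) (mpo ρ) hB hN
  have h7 : Dep Λ h := h6 (fun η η' => ∀ x ∈ Λ, η x = η' x) (fun η η' h => iff_of_eq (hd η η' h))
    fun η η' z h x hx => by simp only [Φo, h x hx]
  refine (cap _ _ (mpe _) (syme _) hB hN h1 h2 h3).trans ?_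
  have a1 := upper ρ' h1 h2 h7 hε
  have a2 := lower ρ h1.m h7
  generalize Pm (mu I) (πo ρ I) {ω | ∃ i ≤ N, Y Φo i ω ∈ B} = p at *
  calc _ ≤ 2 * p + N * ((Λ.card * ε) ^ 2 + 4 * (L * (ρ {0}ᶜ * ρ {0} ^ Λ.card * 2⁻¹)) *
        ∑ x ∈ Λ, Dx h x) := by
        gcongr
        exact a1.trans (by gcongr)
    _ = 2 * p + 4 * L * (N * (ρ {0}ᶜ * ρ {0} ^ Λ.card * 2⁻¹ * ∑ x ∈ Λ, Dx h x)) +
        N * (Λ.card * ε) ^ 2 := by ring
    _ ≤ 2 * p + 4 * L * (2 * p) + N * (Λ.card * ε) ^ 2 := by
        gcongr 2 * p + 4 * L * ?_ + _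
        exact le_trans (by gcongr) h5
    _ = _ := by ring

end Pool.Agent.H.MP_20d613_pr
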