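import Mathlib
import Pool.Agent.H.MP_20d613_pr.A

/-! Discrepancy process for stirring and the skeleton law of the resampling dynamics. -/

set_option linter.unusedSectionVars false

namespace Pool.Agent.H.MP_20d613_pr

open MeasureTheory ProbabilityTheory Finset Function Pool.Agent.Lib.helper3.Chain
open scoped ENNReal Classical

variable {I : Type} [Countable I]

def Bad (u : Sym2 I → ℕ) (x : I) : Prop := ∃ y, 2 ≤ u s(x, y) ∨
  (∃ z, s(x, y) ≠ s(x, z) ∧ u s(x, y) ≠ 0 ∧ u s(x, z) ≠ 0) ∨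
  ∃ z, s(x, y) ≠ s(y, z) ∧ u s(x, y) ≠ 0 ∧ u s(y, z) ≠ 0

def Δ (η : ℕ → Sym2 I → ℕ) : ℕ → I → Prop
  | 0, _ => False
  | k + 1, x => Δ η k x ∨ Bad (η k) x ∨ ∃ y, Δ η k y ∧ η k s(x, y) ≠ 0

lemma mBad (x : I) : MeasurableSet {u : Sym2 I → ℕ | Bad u x} := by
  unfold Bad
  measurability

lemma mΔ (k : ℕ) : ∀ x : I, MeasurableSet {ω : (I → Bool) × (ℕ → Sym2 I → ℕ) | Δ ω.2 k x} := by
  induction k with
  | zero => intro x; simp [Δ]
  | succ k ih =>
    intro x
    have h1 : MeasurableSet {ω : (I → Bool) × (ℕ → Sym2 I → ℕ) | Bad (ω.2 k) x} :=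
      (mBad x).preimage (by fun_prop)
    simp only [Δ]
    measurability

lemma depΔ (k : ℕ) (η η' : ℕ → Sym2 I → ℕ) (h : ∀ i < k, η i = η' i) : Δ η k = Δ η' k := by
  induction k with
  | zero => rfl
  | succ k ih => funext x; simp only [Δ]; rw [ih fun i hi => h i (by omega), h k (by omega)]

lemma Δ_mono (η : ℕ → Sym2 I → ℕ) (x : I) {k l : ℕ} (h : k ≤ l) (h' : Δ η k x) : Δ η l x := by
  induction l, h using Nat.le_induction with
  | base => exact h'
  | succ l _ ih => exact Or.inl ih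

section
variable (ρ : Sym2 I → Measure ℕ) [∀ e, IsProbabilityMeasure (ρ e)] {a : Sym2 I → ℝ≥0∞}
  {ε : ℝ≥0∞} (h1 : ∀ e, ρ e {0}ᶜ ≤ a e) (h2 : ∀ e, ρ e (Set.Ici 2) ≤ a e ^ 2)
  (h3 : ∀ x, ∑' y, a s(x, y) ≤ ε)
include h1 h2 h3

lemma P_bad (x : I) : Measure.infinitePi ρ {u | Bad u x} ≤ 3 * ε ^ 2 := by
  have b : ∀ y w, Measure.infinitePi ρ
      (⋃ z, {u | s(x, y) ≠ s(w, z) ∧ u s(x, y) ≠ 0 ∧ u s(w, z) ≠ 0}) ≤ a s(x, y) * ε := fun y w => by
    refine (measure_iUnion_le _).trans ((ENNReal.tsum_le_tsum fun z => (p_two ρ _ _).trans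
      (mul_le_mul' (h1 _) (h1 _))).trans ?_)
    rw [ENNReal.tsum_mul_left]
    gcongr
    exact h3 w
  have c : ∀ y, Measure.infinitePi ρ {u | 2 ≤ u s(x, y)} ≤ a s(x, y) * ε := fun y => by
    refine (p_one ρ _ (Set.Ici 2)).le.trans ((h2 _).trans ?_)
    rw [pow_two]
    gcongr
    exact (ENNReal.le_tsum (f := fun y => a s(x, y)) y).trans (h3 x)
  simp only [Bad, Set.ofPred_exists, Set.ofPred_or]
  refine (measure_iUnion_le _).trans ((ENNReal.tsum_le_tsum fun y => (measure_union_le _ _).trans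
    (add_le_add (c y) ((measure_union_le _ _).trans (add_le_add (b y x) (b y y))))).trans ?_)
  simp only [ENNReal.tsum_add, ENNReal.tsum_mul_right]
  calc _ ≤ ε * ε + (ε * ε + ε * ε) := by gcongr <;> exact h3 x
    _ = _ := by ring

lemma P_Δ (k : ℕ) : ∀ x : I, Pm (mu I) (Measure.infinitePi ρ) {ω | Δ ω.2 k x} ≤
    k * (3 * ε ^ 2) * (1 + ε) ^ k := by
  induction k with
  | zero => intro x; simp [Δ]
  | succ k ih =>
    intro x
    have b0 := past_set (mu I) (Measure.infinitePi ρ) k MeasurableSet.univ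
      (fun _ _ _ _ => Iff.rfl) (mBad x)
    rw [Set.univ_inter, measure_univ, one_mul] at b0
    have b : ∀ y, Pm (mu I) (Measure.infinitePi ρ) {ω | Δ ω.2 k y ∧ ω.2 k s(x, y) ≠ 0} ≤
        k * (3 * ε ^ 2) * (1 + ε) ^ k * a s(x, y) := fun y => by
      have := past_set (mu I) (Measure.infinitePi ρ) k (mΔ k y)
        (fun _ η η' h => by simp only [Set.mem_ofPred_eq, depΔ k η η' h])
        (B := {u | u s(x, y) ∈ ({0}ᶜ : Set ℕ)}) (by measurability)
      exact this.le.trans (mul_le_mul' (ih _) ((p_one ρ _ _).le.trans (h1 _)))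
    simp only [Δ, Set.ofPred_exists, Set.ofPred_or]
    refine (measure_union_le _ _).trans ((add_le_add (ih x) ((measure_union_le _ _).trans
      (add_le_add (b0.le.trans (P_bad ρ h1 h2 h3 x))
        ((measure_iUnion_le _).trans (ENNReal.tsum_le_tsum b))))).trans ?_)
    rw [ENNReal.tsum_mul_left]
    generalize 3 * ε ^ 2 = p
    have c : p ≤ p * (1 + ε) ^ (k + 1) := le_mul_of_one_le_right' (one_le_pow₀ le_self_add)
    calc _ ≤ k * p * (1 + ε) ^ k + (p * (1 + ε) ^ (k + 1) + k * p * (1 + ε) ^ k * ε) := by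
          gcongr
          exact h3 x
      _ = _ := by push_cast; ring

end

lemma split : MeasurePreserving (fun d : Bool × ℕ × I → Bool =>
    ((fun x => d (true, 0, x), fun k x => d (false, k, x)) : (I → Bool) × (ℕ → I → Bool)))
    (mu (Bool × ℕ × I)) ((mu I).prod (Measure.infinitePi fun _ => mu I)) := by
  have a1 : MeasurePreserving (MeasurableEquiv.curry Bool (ℕ × I) Bool) (mu (Bool × ℕ × I))
      (Measure.infinitePi fun _ => mu (ℕ × I)) :=
    ⟨by fun_prop, Measure.infinitePi_map_curry fun _ _ => β⟩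
  have a2 : MeasurePreserving (fun ω : Bool → ℕ × I → Bool => (ω true, ω false))
      (Measure.infinitePi fun _ => mu (ℕ × I)) ((mu (ℕ × I)).prod (mu (ℕ × I))) :=
    ⟨by fun_prop, Measure.infinitePi_map_eval_prod (by simp)⟩
  have a3 : MeasurePreserving (fun (ω : ℕ × I → Bool) (x : I) => ω (0, x)) (mu (ℕ × I)) (mu I) :=
    ⟨by fun_prop, Measure.map_infinitePi_infinitePi_of_inj (Prod.mk_right_injective 0)⟩
  have a4 : MeasurePreserving (MeasurableEquiv.curry ℕ I Bool) (mu (ℕ × I))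
      (Measure.infinitePi fun _ => mu I) :=
    ⟨by fun_prop, Measure.infinitePi_map_curry fun _ _ => β⟩
  exact (a3.prod a4).comp (a2.comp a1)

noncomputable def φ (η : ℕ → I → ℕ) (p : I × ℕ) : Bool × ℕ × I :=
  if h : ∃ k, ∑ i ∈ range (k + 1), η i p.1 = p.2 ∧ η k p.1 ≠ 0 then (false, h.choose, p.1)
  else (true, p.2, p.1)

lemma φ_inj (η : ℕ → I → ℕ) : Injective (φ η) := by
  rintro ⟨x, m⟩ ⟨y, l⟩ h
  unfold φ at h
  split_ifs at h with h1 h2 h2
  · simp only [Prod.mk.injEq, true_and] at h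
    obtain ⟨h, rfl⟩ := h
    have a := h1.choose_spec.1
    have b := h2.choose_spec.1
    rw [h] at a
    exact Prod.ext rfl (a.symm.trans b)
  · simp at h
  · simp at h
  · simp only [Prod.mk.injEq, true_and] at h
    exact Prod.ext h.2 h.1

lemma Y_φ (η : ℕ → I → ℕ) (d : Bool × ℕ × I → Bool) (k : ℕ) (x : I) :
    Y Φo k (fun x => d (true, 0, x), fun k => (η k, fun x => d (false, k, x))) x =
      d (φ η (x, ∑ i ∈ range k, η i x)) := by
  induction k with
  | zero =>
    rw [φ, dif_neg]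
    · rfl
    · rintro ⟨k, h1, h2⟩
      exact h2 (sum_eq_zero_iff.1 h1 k (self_mem_range_succ k))
  | succ k ih =>
    simp only [Y, Φo]
    split_ifs with h
    · rw [ih, sum_range_succ, h, add_zero]
    · have h1 : ∃ l, ∑ i ∈ range (l + 1), η i x = ∑ i ∈ range (k + 1), η i x ∧ η l x ≠ 0 :=
        ⟨k, rfl, h⟩
      have h2 : ∀ a b, ∑ i ∈ range (a + 1), η i x = ∑ i ∈ range (b + 1), η i x → η b x ≠ 0 →
          b ≤ a := fun a b e hb => by
        by_contra hc
        have := sum_le_sum_of_subset (f := fun i => η i x) (range_mono (show a + 1 ≤ b by omega))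
        rw [sum_range_succ _ b] at e
        omega
      rw [φ, dif_pos h1, le_antisymm (h2 _ _ h1.choose_spec.1.symm h1.choose_spec.2)
        (h2 _ _ h1.choose_spec.1 h)]

lemma mS : Measurable fun z : (I × ℕ → Bool) × (ℕ → I → ℕ) =>
    ((fun k x => z.1 (x, ∑ i ∈ range k, z.2 i x), z.2) : (ℕ → I → Bool) × (ℕ → I → ℕ)) := by
  refine Measurable.prodMk (measurable_pi_lambda _ fun k => measurable_pi_lambda _ fun x => ?_)
    measurable_snd
  exact (measurable_from_prod_countable_left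
    (f := fun p : (I × ℕ → Bool) × ℕ => p.1 (x, p.2)) fun m => measurable_pi_apply (x, m)).comp
    (f := fun z : (I × ℕ → Bool) × (ℕ → I → ℕ) => (z.1, ∑ i ∈ range k, z.2 i x)) (by fun_prop)

variable (ρ : Measure ℕ) [IsProbabilityMeasure ρ]

lemma mT : Measurable fun ω : (I → Bool) × (ℕ → (I → ℕ) × (I → Bool)) =>
    ((fun k => Y Φo k ω, fun k => (ω.2 k).1) : (ℕ → I → Bool) × (ℕ → I → ℕ)) :=
  (measurable_pi_lambda _ fun k => mY (mpo (Measure.dirac 0)).measurable k).prodMk (by fun_prop)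

lemma skel : MeasurePreserving (fun z : (I × ℕ → Bool) × (ℕ → I → ℕ) =>
    ((fun k x => z.1 (x, ∑ i ∈ range k, z.2 i x), z.2) : (ℕ → I → Bool) × (ℕ → I → ℕ)))
    ((mu (I × ℕ)).prod (Measure.infinitePi fun _ => Measure.infinitePi fun _ => ρ))
    ((Pm (mu I) (πo ρ I)).map fun ω => (fun k => Y Φo k ω, fun k => (ω.2 k).1)) := by
  refine ⟨mS, Measure.ext_of_lintegral _ fun f hf => ?_⟩
  have a1 := (MeasurePreserving.id (mu I)).prod
    (zip (fun _ : ℕ => Measure.infinitePi fun _ : I => ρ) fun _ => mu I)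
  have m0 : Measurable fun ω : (I → Bool) × (ℕ → (I → ℕ) × (I → Bool)) =>
      f (fun k => Y Φo k ω, fun k => (ω.2 k).1) := hf.comp mT
  set g : (I → Bool) × (ℕ → I → ℕ) × (ℕ → I → Bool) → ℝ≥0∞ := fun z =>
    f (fun k => Y Φo k (z.1, fun i => (z.2.1 i, z.2.2 i)), z.2.1) with hg
  have m1 : Measurable g := m0.comp a1.measurable
  have m3 : Measurable fun z : (I × ℕ → Bool) × (ℕ → I → ℕ) =>
    f (fun k x => z.1 (x, ∑ i ∈ range k, z.2 i x), z.2) := hf.comp mS
  rw [lintegral_map hf mS, lintegral_map hf mT, ← a1.lintegral_comp m0]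
  refine Eq.trans ?_ (lintegral_prod_symm g m1.aemeasurable).symm
  rw [lintegral_prod_symm _ m3.aemeasurable,
    lintegral_prod _ m1.lintegral_prod_left'.aemeasurable]
  refine lintegral_congr fun η => ?_
  have m2 : Measurable fun z : (I → Bool) × (ℕ → I → Bool) => g (z.1, η, z.2) :=
    m1.comp (by fun_prop)
  have a2 : MeasurePreserving (fun (d : Bool × ℕ × I → Bool) p => d (φ η p)) (mu _) (mu _) :=
    ⟨by fun_prop, Measure.map_infinitePi_infinitePi_of_inj (φ_inj η)⟩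
  refine Eq.trans ?_ (lintegral_prod_symm _ m2.aemeasurable)
  rw [← split.lintegral_comp m2, ← a2.lintegral_comp (f := fun b : I × ℕ → Bool =>
    f (fun k x => b (x, ∑ i ∈ range k, η i x), η)) (m3.comp measurable_prodMk_right)]
  refine lintegral_congr fun d => congrArg f (Prod.ext ?_ rfl)
  funext k x
  exact (Y_φ η d k x).symm

end Pool.Agent.H.MP_20d613_pr
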