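import Mathlib
import Pool.Agent.H.MP_20d613_pr.B
import Pool.Agent.H.MP_e8a7ad_pr.D

/-! Pathwise comparison with the skeletons and approximation of measurable events. -/

set_option linter.unusedSectionVars false

namespace Pool.Agent.H.MP_20d613_pr

open MeasureTheory ProbabilityTheory Filter Topology Finset Function Pool.Agent.Lib.helper3.Chain
open Pool.Agent.H.MP_e8a7ad_pr (ring_at tm tm_mono)
open scoped ENNReal NNReal Classical

variable {I : Type} [Countable I]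

noncomputable def inc {J : Type} (N : J → ℝ≥0 → ℕ) (n : ℕ) : ℕ → J → ℕ :=
  fun k e => N e (tm n (k + 1)) - N e (tm n k)

structure Stir (N : Sym2 I → ℝ≥0 → ℕ) (X : ℝ≥0 → I → Bool) : Prop where
  mono : ∀ e, Monotone (N e)
  rc : ∀ e t, ContinuousWithinAt (N e) (Set.Ici t) t
  stay : ∀ x s t, s ≤ t → (∀ y, N s(x, y) t = N s(x, y) s) → X t x = X s x
  jump : ∀ x y t, 0 < t → (∀ s < t, N s(x, y) s < N s(x, y) t) →
    X t x = leftLim (fun s => X s y) t

lemma Stir.slot {N : Sym2 I → ℝ≥0 → ℕ} {X : ℝ≥0 → I → Bool} (h : Stir N X) {a b : ℝ≥0}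
    (hab : a ≤ b) {x : I} (hx : ¬ Bad (fun e => N e b - N e a) x) :
    X b x = X a (mate (fun e => N e b - N e a) x) := by
  have sq : ∀ e s, N e b - N e a = 0 → a ≤ s → s ≤ b → N e s = N e a := fun e s h0 h1 h2 => by
    have := h.mono e h1
    have := h.mono e h2
    omega
  by_cases hc : ∀ y, N s(x, y) b - N s(x, y) a = 0
  · rw [((mate_or _ x).resolve_left fun h => h.1 (hc _)).1]
    exact h.stay x a b hab fun y => sq _ _ (hc y) hab le_rfl
  push Not at hc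
  obtain ⟨y, hc⟩ := hc
  simp only [Bad, not_exists, not_or, not_and, not_not] at hx
  obtain ⟨h1, h2, h3⟩ := hx y
  obtain ⟨τ, t1, t2, t3, t4⟩ := ring_at (h.mono s(x, y)) (h.rc _) (a := a) (b := b) (by omega)
  have e1 : act (fun e => N e b - N e a) x y := by
    refine ⟨hc, fun z hz => ?_, fun z hz => ?_⟩
    · by_contra hn
      exact hz (h2 z (fun he => hn (Sym2.congr_right.1 he).symm) hc)
    · by_contra hn
      exact hz (h3 z (fun he => hn (Sym2.congr_right.1 (Sym2.eq_swap.trans he)).symm) hc)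
  have e2 : leftLim (fun s => X s y) τ = X a y := by
    have := nhdsLT_neBot_of_exists_lt ⟨a, t1⟩
    refine leftLim_eq_of_tendsto (tendsto_const_nhds.congr' ?_)
    filter_upwards [Ico_mem_nhdsLT t1] with s hs
    refine (h.stay _ a s hs.1 fun z => ?_).symm
    by_cases he : s(x, y) = s(y, z)
    · rw [← he]; exact le_antisymm (t4 s hs.2) (h.mono _ hs.1)
    · exact sq _ _ (h3 z he hc) hs.1 (hs.2.le.trans t2)
  rw [e1.mate, ← e2, ← h.jump x y τ (lt_of_le_of_lt zero_le t1) fun s hs => (t4 s hs).trans_lt t3]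
  refine h.stay x τ b t2 fun z => ?_
  by_cases he : s(x, y) = s(x, z)
  · rw [← he]
    have := h.mono s(x, y) t2
    omega
  · rw [sq _ _ (h2 z he hc) hab le_rfl, sq _ _ (h2 z he hc) t1.le t2]

lemma Stir.agree {N : Sym2 I → ℝ≥0 → ℕ} {X : ℝ≥0 → I → Bool} (h : Stir N X) (n k : ℕ) :
    ∀ x, ¬ Δ (inc N n) k x → Y Φe k (X 0, inc N n) x = X (tm n k) x := by
  induction k with
  | zero => intro x _; simp [Y, tm]
  | succ k ih =>
    intro x hx
    simp only [Δ, not_or, not_exists, not_and, not_not] at hx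
    rw [h.slot (tm_mono n k.le_succ) hx.2.1]
    refine ih (mate (inc N n k) x) fun hc => ?_
    rcases mate_or (inc N n k) x with h1 | h1
    · exact h1.1 (hx.2.2 _ hc)
    · exact hx.1 (h1.1 ▸ hc)

lemma fatou {Ω : Type} [MeasurableSpace Ω] {P : Measure Ω} {E : Set Ω} {G : ℕ → Set Ω}
    {a : ℕ → ℝ≥0∞} {c : ℝ≥0∞} (h1 : ∀ᵐ ω ∂P, ω ∈ E → ∀ᶠ n in atTop, ω ∈ G n)
    (h2 : ∀ᶠ n in atTop, P (G n) ≤ a n) (h3 : Tendsto a atTop (𝓝 c)) : P E ≤ c := by
  have h4 : Tendsto (fun k => P {ω | ∀ n ≥ k, ω ∈ G n}) atTop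
      (𝓝 (P (⋃ k, {ω | ∀ n ≥ k, ω ∈ G n}))) :=
    tendsto_measure_iUnion_atTop fun a b hab ω hω n hn => hω n (hab.trans hn)
  refine (measure_mono_ae (h1.mono fun ω h hω =>
    Set.mem_iUnion.2 (eventually_atTop.1 (h hω)))).trans (le_of_tendsto' h4 fun k => ?_)
  refine ge_of_tendsto h3 ?_
  filter_upwards [h2, eventually_ge_atTop k] with n hn hk
  exact (measure_mono (s := {ω | ∀ n ≥ k, ω ∈ G n}) fun ω hω => hω n hk).trans hn

lemma slot_of {t σ : ℝ≥0} (h : t < σ) {T : ℕ} (hT : σ ≤ T) : ∀ᶠ n : ℕ in atTop,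
    ∃ k < T * n, t ≤ tm n k ∧ tm n k < σ ∧ σ ≤ tm n (k + 1) := by
  have h4' : (0 : ℝ) < σ - t := sub_pos.2 (by exact_mod_cast h)
  filter_upwards [eventually_gt_atTop 0,
    (tendsto_natCast_atTop_atTop (R := ℝ)).eventually_ge_atTop (1 / (σ - t))] with n n0 hn'
  have n1 : (0 : ℝ≥0) < n := by exact_mod_cast n0
  have k1 : 0 < ⌈σ * n⌉₊ := Nat.lt_ceil.2 (by simpa using mul_pos (lt_of_le_of_lt zero_le h) n1)
  have k2 : ⌈σ * n⌉₊ ≤ T * n := Nat.ceil_le.2 (by push_cast; gcongr)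
  obtain ⟨k, hk⟩ : ∃ k, ⌈σ * n⌉₊ = k + 1 := Nat.exists_eq_add_one.2 k1
  have a2' : σ * n ≤ ((k + 1 : ℕ) : ℝ≥0) := hk ▸ Nat.le_ceil _
  refine ⟨k, by omega, ?_, ?_, ?_⟩
  · rw [tm, le_div_iff₀ n1]
    have : (σ : ℝ) * n ≤ k + 1 := by exact_mod_cast a2'
    rw [div_le_iff₀ h4'] at hn'
    have : (t : ℝ) * n ≤ k := by linarith
    exact_mod_cast this
  · rw [tm, div_lt_iff₀ n1]; exact Nat.lt_ceil.1 (by omega)
  · rw [tm, le_div_iff₀ n1]; exact a2'

lemma Dep.mem {Λ : Finset I} {B : Set (I → Bool)} (h : Dep Λ (· ∈ B)) {η η' : I → Bool}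
    (h1 : η ∈ B) (h2 : ∀ x ∈ Λ, η x = η' x) : η' ∈ B := (iff_of_eq (h η η' h2)).1 h1

lemma Dep.meas {Λ : Finset I} {B : Set (I → Bool)} (h : Dep Λ (· ∈ B)) : MeasurableSet B := by
  have : B = Λ.restrict ⁻¹' (Λ.restrict '' B) := by
    refine (Set.subset_preimage_image _ _).antisymm ?_
    rintro η ⟨η', h1, h2⟩
    exact h.mem h1 fun x hx => congrFun h2 ⟨x, hx⟩
  rw [this]
  exact Finset.measurable_restrict Λ .of_discrete

lemma choquet {A : Set (I → Bool)} (hA : MeasurableSet A) {c : Set (I → Bool) → ℝ≥0∞}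
    (c0 : c ∅ = 0) (c1 : Monotone c)
    (c2 : ∀ s : ℕ → Set (I → Bool), Monotone s → c (⋃ n, s n) ≤ ⨆ n, c (s n)) {r : ℝ≥0∞}
    (hr : r < c A) : ∃ (Λ : ℕ → Finset I) (B : ℕ → Set (I → Bool)), Antitone B ∧
      (∀ k, Dep (Λ k) (· ∈ B k)) ∧ (∀ k, r < c (B k)) ∧ ⋂ k, B k ⊆ A := by
  have : PolishSpace (I → Bool) := {}
  have h := hA.analyticSet
  rw [AnalyticSet] at h
  obtain rfl | ⟨f, hf, rfl⟩ := h
  · simp [c0] at hr
  have st : ∀ (S : Set (ℕ → ℕ)) (i : ℕ), ∃ m, r < c (f '' S) →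
      r < c (f '' (S ∩ {x | x i ≤ m})) := fun S i => by
    by_cases h : r < c (f '' S)
    swap
    · exact ⟨0, fun h' => absurd h' h⟩
    simp only [h, true_imp_iff]
    refine lt_iSup_iff.1 (h.trans_le ((c1 ?_).trans (c2 _ fun a b hab =>
      Set.image_mono (Set.inter_subset_inter_right _ fun x hx => le_trans hx hab))))
    rintro _ ⟨x, hx, rfl⟩
    exact Set.mem_iUnion.2 ⟨x i, x, ⟨hx, (le_rfl : x i ≤ x i)⟩, rfl⟩
  choose g hg using st
  let S : ℕ → Set (ℕ → ℕ) := fun k => Nat.rec Set.univ (fun i s => s ∩ {x | x i ≤ g s i}) k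
  have S1 : Antitone S := antitone_nat_of_succ_le fun k => Set.inter_subset_left
  have S2 : ∀ k, r < c (f '' S k) := fun k => by
    induction k with
    | zero => rwa [← Set.image_univ] at hr
    | succ k ih => exact hg _ _ ih
  obtain ⟨e, he⟩ := Countable.exists_injective_nat I
  refine ⟨fun k => ((Set.finite_Iio k).preimage he.injOn).toFinset,
    fun k => {η | ∃ x ∈ S k, ∀ y, e y < k → η y = f x y},
    fun a b hab η ⟨x, h1, h2⟩ => ⟨x, S1 hab h1, fun y hy => h2 y (hy.trans_le hab)⟩,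
    fun k η η' h => propext (exists_congr fun x => and_congr_right fun _ =>
      forall₂_congr fun y hy => by rw [h y (by simpa using hy)]),
    fun k => (S2 k).trans_le (c1 ?_), fun η hη => ?_⟩
  · rintro _ ⟨x, hx, rfl⟩
    exact ⟨x, hx, fun _ _ => rfl⟩
  choose x h1 h2 using Set.mem_iInter.1 hη
  have ev : ∀ i, ∀ᶠ k : ℕ in hyperfilter ℕ, i < k := fun i =>
    (Nat.hyperfilter_le_atTop (eventually_gt_atTop i))
  have : ∀ i, ∃ a, ∀ᶠ k in hyperfilter ℕ, x k i = a := fun i => by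
    obtain ⟨a, -, ha⟩ := (Ultrafilter.eventually_exists_mem_iff (f := hyperfilter ℕ)
      (Set.finite_Iic (g (S i) i)) (P := fun a k => x k i = a)).1
      ((ev i).mono fun k hk => ⟨_, (S1 (Nat.succ_le_of_lt hk) (h1 k)).2, rfl⟩)
    exact ⟨a, ha⟩
  choose a ha using this
  refine ⟨a, funext fun y => ?_⟩
  have t1 : Tendsto x (hyperfilter ℕ) (𝓝 a) :=
    tendsto_pi_nhds.2 fun i => tendsto_const_nhds.congr' ((ha i).mono fun k hk => hk.symm)
  exact tendsto_nhds_unique (tendsto_pi_nhds.1 ((hf.tendsto a).comp t1) y)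
    (tendsto_const_nhds.congr' ((ev (e y)).mono fun k hk => h2 k y hk))

def GG (M : I → ℝ≥0 → ℕ) (b : I × ℕ → Bool) (T : ℕ) (x : I) (B : Set (I → Bool)) : Prop :=
  ∃ t σ : ℝ≥0, t < σ ∧ σ ≤ T ∧ (∀ s < σ, M x s < M x σ) ∧
    ∀ s, t ≤ s → s < σ → (fun y => b (y, M y s)) ∈ B

lemma limit {M : I → ℝ≥0 → ℕ} (hm : ∀ x, Monotone (M x))
    (hr : ∀ x t, ContinuousWithinAt (M x) (Set.Ici t) t) {b : I × ℕ → Bool} {T : ℕ}
    {Λ : ℕ → Finset I} {B : ℕ → Set (I → Bool)} (h1 : Antitone B) (h2 : ∀ k, Dep (Λ k) (· ∈ B k))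
    (h3 : ∀ k, ∃ s : ℝ≥0, s ≤ T ∧ (fun y => b (y, M y s)) ∈ B k) :
    (∃ t, (fun y => b (y, M y t)) ∈ ⋂ k, B k) ∨ ∃ x, ∀ k, GG M b T x (B k) := by
  choose s s1 s2 using h3
  obtain ⟨σ, σ1, σ2⟩ := (isCompact_Icc (a := (0 : ℝ≥0)) (b := T)).ultrafilter_le_nhds
    ((hyperfilter ℕ).map s) (le_principal_iff.2 (mem_map.2 (univ_mem' fun k => ⟨zero_le, s1 k⟩)))
  have σ3 : Tendsto s (hyperfilter ℕ) (𝓝 σ) := σ2
  have : ∀ y, ∃ a, ∀ᶠ k in hyperfilter ℕ, M y (s k) = a := fun y => by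
    obtain ⟨a, -, ha⟩ := (Ultrafilter.eventually_exists_mem_iff (f := hyperfilter ℕ)
      (Set.finite_Iic (M y T)) (P := fun a k => M y (s k) = a)).1
      (Eventually.of_forall fun k => ⟨_, hm y (s1 k), rfl⟩)
    exact ⟨a, ha⟩
  choose m hM using this
  have e1 : ∀ k, ∀ᶠ l in hyperfilter ℕ, ∀ y ∈ Λ k, M y (s l) = m y := fun k =>
    (eventually_all_finset _).2 fun y _ => hM y
  have e2 : ∀ k, (fun y => b (y, m y)) ∈ B k := fun k => by
    obtain ⟨l, l1, l2⟩ := ((e1 k).and (Nat.hyperfilter_le_atTop (eventually_ge_atTop k))).exists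
    exact (h2 k).mem (h1 l2 (s2 l)) fun y hy => by rw [l1 y hy]
  by_cases hc : ∀ y, M y σ = m y
  · exact Or.inl ⟨σ, by simp only [hc]; exact Set.mem_iInter.2 e2⟩
  push Not at hc
  obtain ⟨x, hx⟩ := hc
  have e3 : ∀ᶠ l in hyperfilter ℕ, s l < σ := by
    by_contra h
    rw [← Ultrafilter.eventually_not] at h
    exact hx (tendsto_nhds_unique ((hr x σ).tendsto.comp (tendsto_nhdsWithin_iff.2
      ⟨σ3, h.mono fun l hl => not_lt.1 hl⟩))
      (tendsto_const_nhds.congr' ((hM x).mono fun l hl => hl.symm)))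
  refine Or.inr ⟨x, fun k => ?_⟩
  obtain ⟨l, l1, l2⟩ := ((e1 k).and e3).exists
  refine ⟨s l, σ, l2, σ1.2, fun u hu => ?_, fun u u1 u2 => ?_⟩
  · obtain ⟨j, j1, j2, j3⟩ := ((hM x).and (e3.and (σ3.eventually_const_lt hu))).exists
    have := hm x j2.le
    have := hm x j3.le
    omega
  · obtain ⟨j, j1, j2⟩ := ((e1 k).and (σ3.eventually_const_lt u2)).exists
    refine (h2 k).mem (e2 k) fun y hy => ?_
    have := hm y u1
    have := hm y j2.le
    rw [show M y u = m y by have := l1 y hy; have := j1 y hy; omega]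

end Pool.Agent.H.MP_20d613_pr
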