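import Mathlib
import Pool.Agent.H.MP_20d613_pr.C

/-! Hitting probabilities in continuous time. -/

set_option linter.unusedSectionVars false

namespace Pool.Agent.H.MP_20d613_pr

open MeasureTheory ProbabilityTheory Filter Topology Finset Function Pool.Agent.Lib.helper3.Chain
open Pool.Agent.H.MP_e8a7ad_pr (tm tm_mono po_ne po_le po_ge po_two)
open scoped ENNReal NNReal Classical

variable {I : Type} [Countable I] {Ω : Type} [MeasurableSpace Ω] {P : Measure Ω}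
  [IsProbabilityMeasure P]

lemma po_le' (r : ℝ≥0) : poissonMeasure r {0}ᶜ ≤ r := by
  rw [← ofReal_measureReal, ← ENNReal.ofReal_coe_nnreal]
  exact ENNReal.ofReal_le_ofReal (po_le _)

lemma po_low (m : ℕ) : ∀ᶠ n : ℕ in atTop, ((1 / n : ℝ≥0) : ℝ≥0∞) ≤
    8 * (poissonMeasure (1 / n) {0}ᶜ * poissonMeasure (1 / n) {0} ^ m * 2⁻¹) := by
  filter_upwards [eventually_ge_atTop (2 * m + 1)] with n hn
  have n1 : (0 : ℝ) < n := by exact_mod_cast (by omega : 0 < n)
  have n2 : (2 * m + 1 : ℝ) ≤ n := by exact_mod_cast hn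
  have b1 := po_ge (r := 1 / n) (by
    rw [div_le_one (by exact_mod_cast n1)]; exact_mod_cast (by omega : 1 ≤ n))
  have b2 : (2⁻¹ : ℝ) ≤ (poissonMeasure (1 / n)).real {0} ^ m := by
    rw [poissonMeasure_real_singleton]
    simp only [pow_zero, mul_one, Nat.factorial_zero, Nat.cast_one, div_one]
    rw [← Real.exp_nat_mul]
    refine le_trans ?_ (Real.add_one_le_exp _)
    push_cast
    have : (m : ℝ) * (1 / n) ≤ 2⁻¹ := by
      rw [mul_one_div, div_le_iff₀ n1]; linarith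
    linarith
  rw [← ofReal_measureReal (s := {0}ᶜ), ← ofReal_measureReal (s := {0}),
    ← ENNReal.ofReal_pow measureReal_nonneg, ← ENNReal.ofReal_coe_nnreal,
    ← ENNReal.ofReal_ofNat 8, ← ENNReal.ofReal_ofNat 2, ← ENNReal.ofReal_inv_of_pos two_pos,
    ← ENNReal.ofReal_mul measureReal_nonneg, ← ENNReal.ofReal_mul (by positivity),
    ← ENNReal.ofReal_mul (by positivity)]
  refine ENNReal.ofReal_le_ofReal ?_
  have b3 : (0 : ℝ) ≤ (1 / n : ℝ≥0) := NNReal.coe_nonneg _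
  nlinarith [mul_le_mul b1 b2 (by norm_num) measureReal_nonneg]

lemma small (C : ℝ≥0) (T : ℕ) : Tendsto (fun n : ℕ => ((T * n : ℕ) : ℝ≥0∞) *
    (C * ((1 / n : ℝ≥0) : ℝ≥0∞)) ^ 2 * (1 + C * ((1 / n : ℝ≥0) : ℝ≥0∞)) ^ (T * n)) atTop (𝓝 0) := by
  have h1 := ENNReal.tendsto_ofReal (tendsto_const_div_atTop_nhds_zero_nat
    (T * C ^ 2 * Real.exp (C * T)))
  rw [ENNReal.ofReal_zero] at h1
  refine tendsto_of_tendsto_of_tendsto_of_le_of_le' tendsto_const_nhds h1
    (Eventually.of_forall fun _ => zero_le) ?_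
  filter_upwards [eventually_gt_atTop 0] with n hn
  have hn' : (0 : ℝ) < n := by exact_mod_cast hn
  rw [← ENNReal.coe_natCast]
  norm_cast
  rw [← ENNReal.ofReal_coe_nnreal]
  refine ENNReal.ofReal_le_ofReal ?_
  push_cast
  have : (1 + C * (1 / n) : ℝ) ^ (T * n) ≤ Real.exp (C * T) := by
    calc _ ≤ Real.exp (C * (1 / n)) ^ (T * n) := by
          gcongr
          linarith [Real.add_one_le_exp (C * (1 / n))]
      _ = _ := by rw [← Real.exp_nat_mul]; congr 1; push_cast; field_simp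
  calc _ ≤ T * n * (C * (1 / n)) ^ 2 * Real.exp (C * T) := by gcongr
    _ = _ := by field_simp

lemma exc_le {N : Sym2 I → ℝ≥0 → Ω → ℕ} {X : ℝ≥0 → Ω → I → Bool} {r : Sym2 I → ℝ≥0} {C : ℝ≥0}
    (hC : ∀ x, ∑' y, (r s(x, y) : ℝ≥0∞) ≤ C)
    (law : ∀ n : ℕ, MeasurePreserving (fun ω => (X 0 ω, inc (fun e t => N e t ω) n)) P
      (Pm (mu I) (Measure.infinitePi fun e => poissonMeasure (r e * (1 / n)))))
    (hS : ∀ᵐ ω ∂P, Stir (fun e t => N e t ω) (fun t => X t ω) ∧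
      ∀ x t, ContinuousWithinAt (fun s => X s ω x) (Set.Ici t) t)
    {Λ : Finset I} {B : Set (I → Bool)} (hB : Dep Λ (· ∈ B)) (T : ℕ) {q : ℝ≥0∞}
    (hq : ∀ n : ℕ, Pm (mu I) (πo (poissonMeasure (1 / n)) I)
      {ω | ∃ i ≤ (T + 1) * n, Y Φo i ω ∈ B} ≤ q) :
    P {ω | ∃ t : ℝ≥0, t ≤ T ∧ X t ω ∈ B} ≤ (2 + 8 * (C * 8)) * q := by
  have h0 := (ENNReal.Tendsto.const_mul (a := (Λ.card ^ 2 + Λ.card * 3 : ℕ)) (small C (T + 1))
    (Or.inr (ENNReal.natCast_ne_top _))).const_add ((2 + 8 * (C * 8)) * q)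
  rw [mul_zero, add_zero] at h0
  refine fatou (G := fun n => (fun ω => (X 0 ω, inc (fun e t => N e t ω) n)) ⁻¹'
    ({ω | ∃ i ≤ (T + 1) * n, Y Φe i ω ∈ B} ∪ ⋃ x ∈ Λ, {ω | Δ ω.2 ((T + 1) * n) x})) ?_ ?_ h0
  · filter_upwards [hS] with ω ⟨h1, h2⟩ ⟨t, t1, t2⟩
    have e1 : ∀ᶠ s in 𝓝[≥] t, ∀ x ∈ Λ, X s ω x = X t ω x := (eventually_all_finset _).2 fun x _ =>
      (h2 x t).preimage_mem_nhdsWithin ((isOpen_discrete {X t ω x}).mem_nhds rfl)
    obtain ⟨u, hu, hu'⟩ := mem_nhdsGE_iff_exists_Ico_subset.1 e1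
    filter_upwards [slot_of (lt_min hu (lt_add_one t)) (T := T + 1)
      ((min_le_right _ _).trans (by push_cast; gcongr))] with n ⟨k, k1, k2, k3, _⟩
    refine or_iff_not_imp_right.2 fun hn => ⟨k, k1.le, hB.mem t2 fun x hx => ?_⟩
    rw [h1.agree n k x fun h => hn (Set.mem_biUnion hx (Δ_mono _ _ k1.le h))]
    exact (hu' ⟨k2, k3.trans_le (min_le_left _ _)⟩ x hx).symm
  · filter_upwards [po_low Λ.card, eventually_gt_atTop 0] with n h1 h2
    have h3 : ∀ x, ∑' y, ((r s(x, y) * (1 / n) : ℝ≥0) : ℝ≥0∞) ≤ C * ((1 / n : ℝ≥0) : ℝ≥0∞) :=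
      fun x => by
        simp only [ENNReal.coe_mul, ENNReal.tsum_mul_right]
        gcongr
        exact hC x
    have h4 := compare (poissonMeasure (1 / n)) (fun e => poissonMeasure (r e * (1 / n)))
      (fun x => (ENNReal.tsum_le_tsum fun y => po_le' _).trans (h3 x)) (L := C * 8) (Λ := Λ)
      (by rw [mul_assoc]; gcongr) hB.meas hB (N := (T + 1) * n) (by positivity)
    have h5 := P_Δ (fun e => poissonMeasure (r e * (1 / n))) (fun e => po_le' _)
      (fun e => po_two _) h3 ((T + 1) * n)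
    refine ((law n).measure_preimage_le _).trans ((measure_union_le _ _).trans
      ((add_le_add h4 ((measure_biUnion_finset_le _ _).trans
        (sum_le_card_nsmul _ _ _ fun x _ => h5 x))).trans ?_))
    have h6 := hq n
    have h7 : 1 ≤ (1 + C * ((1 / n : ℝ≥0) : ℝ≥0∞)) ^ ((T + 1) * n) := one_le_pow₀ le_self_add
    generalize (1 + C * ((1 / n : ℝ≥0) : ℝ≥0∞)) ^ ((T + 1) * n) = a at *
    generalize (((T + 1) * n : ℕ) : ℝ≥0∞) = b at *
    generalize C * ((1 / n : ℝ≥0) : ℝ≥0∞) = c at *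
    calc _ ≤ (2 + 8 * (C * 8)) * q + b * (Λ.card * c) ^ 2 * a + Λ.card • (b * (3 * c ^ 2) * a) := by
          gcongr _ * ?_ + ?_ + _
          exact le_mul_of_one_le_right' h7
      _ = _ := by rw [nsmul_eq_mul]; push_cast; ring

variable {M : I → ℝ≥0 → Ω → ℕ} {b : Ω → I × ℕ → Bool}
  (law : ∀ n : ℕ, MeasurePreserving (fun ω => (b ω, inc (fun e t => M e t ω) n)) P
    ((mu (I × ℕ)).prod
      (Measure.infinitePi fun _ => Measure.infinitePi fun _ => poissonMeasure (1 / n))))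
  (h0 : ∀ x ω, M x 0 ω = 0) (hm : ∀ x ω, Monotone fun t => M x t ω)
include law h0 hm

lemma ord_law (n : ℕ) : MeasurePreserving
    (fun ω => (fun k x => b ω (x, M x (tm n k) ω), inc (fun e t => M e t ω) n)) P
    ((Pm (mu I) (πo (poissonMeasure (1 / n)) I)).map
      fun ω => (fun k => Y Φo k ω, fun k => (ω.2 k).1)) := by
  convert (skel _).comp (law n) using 2 with ω
  refine Prod.ext ?_ rfl
  funext k x
  have := sum_range_tsub ((hm x ω).comp (tm_mono n)) k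
  simp only [comp, inc] at this ⊢
  rw [this]
  simp [tm, h0]

lemma GG_le (T : ℕ) (x : I) {B : Set (I → Bool)} (hB : MeasurableSet B) :
    P {ω | GG (fun e t => M e t ω) (b ω) T x B} ≤ T * mu I B := by
  refine fatou (G := fun n => ⋃ k ∈ range (T * n),
    (fun ω => (fun k x => b ω (x, M x (tm n k) ω), inc (fun e t => M e t ω) n)) ⁻¹'
      {z | z.1 k ∈ B ∧ z.2 k x ≠ 0}) (ae_of_all _ ?_) ?_ tendsto_const_nhds
  · rintro ω ⟨t, σ, h1, h2, h3, h4⟩
    filter_upwards [slot_of h1 h2] with n ⟨k, k1, k2, k3, k4⟩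
    refine Set.mem_biUnion (mem_range.2 k1) ⟨h4 _ k2 k3, ?_⟩
    have := h3 _ k3
    have := hm x ω k4
    simp only [inc] at *
    omega
  · filter_upwards [eventually_gt_atTop 0] with n hn
    refine (measure_biUnion_finset_le _ _).trans ((sum_le_card_nsmul _ _
      (mu I B * ((1 / n : ℝ≥0) : ℝ≥0∞)) fun k _ => ?_).trans (le_of_eq ?_))
    · have m : MeasurableSet {z : (ℕ → I → Bool) × (ℕ → I → ℕ) | z.1 k ∈ B ∧ z.2 k x ≠ 0} :=
        (hB.preimage (by fun_prop)).inter ((show Measurable fun z : (ℕ → I → Bool) × (ℕ → I → ℕ) =>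
          z.2 k x by fun_prop) (t := {0}ᶜ) .of_discrete)
      have l := lawY (mu I) _ (mpo (poissonMeasure (1 / n))) k
      have := past_set (mu I) (πo (poissonMeasure (1 / n)) I) k (hB.preimage l.measurable)
        (fun g η η' h => by simp only [Set.mem_preimage, depY k g η η' h])
        (B := (eval x ∘ Prod.fst) ⁻¹' {0}ᶜ) (by measurability)
      rw [l.measure_preimage hB.nullMeasurableSet,
        ((measurePreserving_eval_infinitePi _ x).comp measurePreserving_fst).measure_preimage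
          (MeasurableSet.nullMeasurableSet .of_discrete)] at this
      rw [(ord_law law h0 hm n).measure_preimage m.nullMeasurableSet, Measure.map_apply mT m]
      exact this.le.trans (by gcongr; exact po_le' _)
    · have : (n : ℝ≥0∞) * ((1 / n : ℝ≥0) : ℝ≥0∞) = 1 := by
        rw [← ENNReal.coe_natCast, ← ENNReal.coe_mul, mul_one_div_cancel (by exact_mod_cast hn.ne')]
        rfl
      rw [card_range, nsmul_eq_mul]
      generalize ((1 / n : ℝ≥0) : ℝ≥0∞) = a at *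
      calc _ = T * mu I B * (n * a) := by push_cast; ring
        _ = _ := by rw [this, mul_one]

theorem main (hr : ∀ x ω t, ContinuousWithinAt (fun s => M x s ω) (Set.Ici t) t)
    {A : Set (I → Bool)} (hA : MeasurableSet A) (hA0 : mu I A = 0)
    {Ω' : Type} [MeasurableSpace Ω'] {P' : Measure Ω'} [IsProbabilityMeasure P']
    {N : Sym2 I → ℝ≥0 → Ω' → ℕ} {X : ℝ≥0 → Ω' → I → Bool} {r : Sym2 I → ℝ≥0} {C : ℝ≥0}
    (hC : ∀ x, ∑' y, (r s(x, y) : ℝ≥0∞) ≤ C)
    (law' : ∀ n : ℕ, MeasurePreserving (fun ω => (X 0 ω, inc (fun e t => N e t ω) n)) P'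
      (Pm (mu I) (Measure.infinitePi fun e => poissonMeasure (r e * (1 / n)))))
    (hS : ∀ᵐ ω ∂P', Stir (fun e t => N e t ω) (fun t => X t ω) ∧
      ∀ x t, ContinuousWithinAt (fun s => X s ω x) (Set.Ici t) t)
    (h : 0 < P' {ω | ∃ t, X t ω ∈ A}) :
    ∃ E, MeasurableSet E ∧ 0 < P E ∧ ∀ ω ∈ E, ∃ t, (fun x => b ω (x, M x t ω)) ∈ A := by
  obtain ⟨T, hT⟩ : ∃ T : ℕ, 0 < P' {ω | ∃ t : ℝ≥0, t ≤ T ∧ X t ω ∈ A} := by
    by_contra hc
    simp only [not_exists, not_lt, nonpos_iff_eq_zero] at hc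
    refine h.ne' (measure_mono_null (fun ω ⟨t, ht⟩ => ?_) (measure_iUnion_null hc))
    exact Set.mem_iUnion.2 ⟨⌈t⌉₊, t, Nat.le_ceil t, ht⟩
  obtain ⟨c, c1, c2⟩ := exists_between hT
  obtain ⟨Λ, B, b1, b2, b3, b4⟩ := choquet hA
    (c := fun B => P' {ω | ∃ t : ℝ≥0, t ≤ T ∧ X t ω ∈ B}) (by simp)
    (fun s s' hs => measure_mono fun ω ⟨t, h1, h2⟩ => ⟨t, h1, hs h2⟩) (fun s hs => by
      rw [← Monotone.measure_iUnion (s := fun i => {ω | ∃ t : ℝ≥0, t ≤ T ∧ X t ω ∈ s i})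
        fun i j hij ω ⟨t, h1, h2⟩ => ⟨t, h1, hs hij h2⟩]
      refine measure_mono fun ω ⟨t, h1, h2⟩ => ?_
      obtain ⟨i, hi⟩ := Set.mem_iUnion.1 h2
      exact Set.mem_iUnion.2 ⟨i, t, h1, hi⟩) c2
  have mB := fun k => (b2 k).meas
  have mF : ∀ n k, MeasurableSet {z : (ℕ → I → Bool) × (ℕ → I → ℕ) |
      ∃ i ≤ (T + 1) * n, z.1 i ∈ B k} := fun n k => by
    simp only [Set.ofPred_exists]
    exact .iUnion fun i => (MeasurableSet.const _).inter ((mB k).preimage (by fun_prop))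
  set E : ℕ → Set Ω := fun k => ⋃ n,
    (fun ω => (fun k x => b ω (x, M x (tm n k) ω), inc (fun e t => M e t ω) n)) ⁻¹'
      {z | ∃ i ≤ (T + 1) * n, z.1 i ∈ B k} with hE
  have e1 : ∀ k, c ≤ (2 + 8 * (C * 8)) * P (E k) := fun k =>
    (b3 k).le.trans (exc_le hC law' hS (b2 k) T fun n => by
      refine le_trans (le_of_eq ?_) (measure_mono (Set.subset_iUnion _ n))
      rw [(ord_law law h0 hm n).measure_preimage (mF n k).nullMeasurableSet,
        Measure.map_apply mT (mF n k)]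
      rfl)
  have mE : ∀ k, MeasurableSet (E k) := fun k => MeasurableSet.iUnion fun n =>
    (ord_law law h0 hm n).measurable (mF n k)
  have e2 : Tendsto (fun k => P (E k)) atTop (𝓝 (P (⋂ k, E k))) :=
    tendsto_measure_iInter_atTop (fun k => (mE k).nullMeasurableSet)
      (fun i j hij => Set.iUnion_mono fun n ω ⟨l, h1, h2⟩ => ⟨l, h1, b1 hij h2⟩)
      ⟨0, measure_ne_top _ _⟩
  have e3 : Tendsto (fun k => mu I (B k)) atTop (𝓝 0) :=
    measure_mono_null b4 hA0 ▸ tendsto_measure_iInter_atTop (fun k => (mB k).nullMeasurableSet) b1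
      ⟨0, measure_ne_top _ _⟩
  have e4 : ∀ x, P {ω | ∀ k, GG (fun e t => M e t ω) (b ω) (T + 1) x (B k)} = 0 := fun x => by
    have := ENNReal.Tendsto.const_mul e3 (Or.inr (ENNReal.natCast_ne_top (T + 1)))
    rw [mul_zero] at this
    exact nonpos_iff_eq_zero.1 (ge_of_tendsto' this fun k =>
      le_trans (measure_mono fun ω hω => hω k) (GG_le law h0 hm _ x (mB k)))
  refine ⟨(⋂ k, E k) \ toMeasurable P (⋃ x,
    {ω | ∀ k, GG (fun e t => M e t ω) (b ω) (T + 1) x (B k)}), (MeasurableSet.iInter mE).diff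
    (measurableSet_toMeasurable _ _), ?_, fun ω hω => ?_⟩
  · rw [measure_sdiff_null ((measure_toMeasurable _).trans (measure_iUnion_null e4))]
    refine pos_iff_ne_zero.2 fun e5 => ?_
    have e6 := ENNReal.Tendsto.const_mul (a := 2 + 8 * (C * 8)) e2 (Or.inr (by finiteness))
    rw [e5, mul_zero] at e6
    exact absurd (ge_of_tendsto' e6 e1) (not_le.2 c1)
  · refine ((limit (M := fun e t => M e t ω) (fun x => hm x ω) (fun x => hr x ω) (b := b ω)
      (T := T + 1) b1 b2 fun k => ?_).resolve_right fun h =>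
        hω.2 (subset_toMeasurable _ _ (Set.mem_iUnion.2 h))).imp fun t ht => b4 ht
    obtain ⟨n, i, h1, h2⟩ := Set.mem_iUnion.1 (Set.mem_iInter.1 hω.1 k)
    exact ⟨tm n i, div_le_of_le_mul₀ zero_le zero_le (by exact_mod_cast h1), h2⟩

end Pool.Agent.H.MP_20d613_pr
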